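import Pool.Agent.Helper67.R12.Sheet
import Pool.Agent.Helper17.R9.FIN9

set_option autoImplicit false

namespace Pool.Helper67.R12

open Pool.Helper17.RS (NR ST_GEN)
open Pool.Helper34.R9 (ST_FIN9)

theorem st_FIN (hCERT : ST_CERT) (hBND : ST_BND) (hSIEVE : ST_SIEVE) (hPAIR : ST_PAIR)
    (hFIN9 : ST_FIN9) (hGEN : ST_GEN) : ST_FIN := by
  obtain ⟨C, hC, hB⟩ := hBND
  refine hFIN9 hGEN 12 QQ 1000 cA cB C hC (by norm_num) (fun T => ?_) hB hSIEVE hPAIR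
  obtain ⟨c1, c2, c3⟩ := hCERT T
  exact ⟨c1, c2, by exact_mod_cast c3⟩

end Pool.Helper67.R12
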